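import Pool.Agent.helper9.RA.SpecE
import Pool.Agent.helper18.RA.TRN

/-!
# rw:TRN2 (MP_70a088_an, rational class): no disc returns: no infinitesimal 1-jet returns in windows, second window form (copy of Pool/Agent/helper18/RA/TRN.lean)
-/

set_option autoImplicit false

open Complex Metric Set Filter Topology MeasureTheory
open HY (UD T S hd UN RM)
open RT
open PL (cm BS DQ)
open RB (VL LO FLS FL CLS FR TL TLL INN WIN DRT)
open RB (NCR WINB)

noncomputable section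

namespace RA

/-- **TRN2** -/
theorem TRN2 (hDIA : P2A.DIA_stmt) (hTKO : RT.TKO_stmt) (hTIN : RT.TIN_stmt) (hVPB : RS.VPB_stmt) (hVCF : RS.VCF_stmt)
    (hNRA : NRA2_stmt) (hDRA : DRA_stmt) : TRN2_stmt := by
  intro Y s hS μ hIB P hCLS x hx U k H χ hk hFR w hw a ha hWIN ρ hρ hNDR L hL
  obtain ⟨C, hC1, hC2⟩ := TRN_win hTKO hTIN hVPB hVCF Y s hS
  have hCCL : 1 ≤ C * C * L := by
    have h1 : 1 ≤ C * C := one_le_mul_of_one_le_of_one_le hC1 hC1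
    exact one_le_mul_of_one_le_of_one_le h1 hL
  obtain ⟨e₀, he₀, hND⟩ := hNDR (C * C * L) hCCL
  by_contra hcon
  push Not at hcon
  -- the bad statement of quality `e`
  obtain ⟨Z, hZ⟩ : ∃ Z : ℝ → ℕ → ℂ → ℕ → ℕ → Prop, Z = fun e j p u v => p ∈ Y.J ∧ p ∈ VL Y (H j) (x j) ∧ pd (VL Y (H j) (x j)) (x j) p ≤ 3 / 4 ∧
    a / 2 ≤ hdf (it Y (w j)) (VL Y (H j) (x j)) (VL Y (H j - w j) (it Y (w j) (x j))) p ∧ u < v ∧ v ≤ w j ∧
    cr (VL Y (H j - w j + u) p) p ≤ L * cr (VL Y (H j) p) p ∧ NRT Y (H j - w j) p u v e := ⟨_, rfl⟩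
  have hbad : ∀ e : ℝ, 0 < e → ∀ᶠ j in (U : Filter ℕ), ∃ (p : ℂ) (u v : ℕ), Z e j p u v := by
    intro e he
    have h1 := hcon e he
    filter_upwards [h1] with j hj
    obtain ⟨p, h3, h4, h5, h6, u, v, h7, h8, h9, h10⟩ := hj
    refine ⟨p, u, v, ?_⟩
    rw [hZ]
    exact ⟨h3, h4, h5, h6, h7, h8, h9, h10⟩
  obtain ⟨t, ht1, ht2⟩ := hDIA U hFR.le (fun i j => ∃ (p : ℂ) (u v : ℕ), Z (1 / ((i : ℝ) + 1)) j p u v)
    (fun i => hbad _ (by positivity))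
  have hch : ∀ j, ∃ (p : ℂ) (u v : ℕ), (∃ (p : ℂ) (u v : ℕ), Z (1 / ((t j : ℝ) + 1)) j p u v) → Z (1 / ((t j : ℝ) + 1)) j p u v := by
    intro j
    by_cases h : ∃ (p : ℂ) (u v : ℕ), Z (1 / ((t j : ℝ) + 1)) j p u v
    · obtain ⟨p, u, v, h1⟩ := h
      exact ⟨p, u, v, fun _ => h1⟩
    · exact ⟨0, 0, 0, fun h1 => absurd h1 h⟩
  choose p u v hpuv using hch
  have hZe : ∀ᶠ j in (U : Filter ℕ), Z (1 / ((t j : ℝ) + 1)) j (p j) (u j) (v j) := by
    filter_upwards [ht2] with j hj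
    exact hpuv j hj
  have he : Tendsto (fun j => 1 / ((t j : ℝ) + 1)) U (𝓝 0) :=
    tendsto_one_div_add_atTop_nhds_zero_nat.comp ht1
  obtain ⟨hm, Aj, Bj, A, hA, hA1, hA2, hA3⟩ := hNRA Y s hS μ hIB P hCLS x hx U k H χ hk hFR w hw a ha hWIN L hL p u v
    (fun j => 1 / ((t j : ℝ) + 1)) he (by
      filter_upwards [hZe] with j hj
      rw [hZ] at hj
      exact hj)
  have hfin := hDRA Y s hS x hx U H (fun j => H j - w j) u v (by
      filter_upwards [hZe, hw] with j hj hj2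
      rw [hZ] at hj
      obtain ⟨-, -, -, -, h1, h2, -⟩ := hj
      refine ⟨h1, ?_⟩
      have := hj2.1
      omega) hm Aj Bj A hA hA1 hA2 hA3 ρ e₀ hρ he₀
  have hfalse : ∀ᶠ j in (U : Filter ℕ), False := by
    filter_upwards [hfin, hND, hZe, hw] with j h1 h2 h3 hwj
    rw [hZ] at h3
    obtain ⟨-, g2, g3, -, h4, h5, h6, -⟩ := h3
    have h7 := hC2 (x j) (hx j) (H j) (H j - w j + u j) (by have := hwj.1; omega) (p j) g2 g3 L (by linarith) h6
    exact h2 (u j) (v j) h4 h5 h7 h1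
  exact hfalse.exists.elim (fun _ h => h)

end RA

end
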